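import Pool.Agent.Y682.YQ.BsdB
import Pool.Agent.Y703.CQ.Cor
import Pool.Agent.Y948.CQ.C2

/-!
# The formula of Birch and Swinnerton-Dyer at the central point modulo two, for the quadratic twists
# of `X_0(14)` with arbitrarily many split and inert primes

`E_D` is the quadratic twist by `D` of the modular curve `X_0(14)` (which has no complex
multiplication).  The class consists of the squarefree `D`, positive and negative, `D = 1` modulo `4`,
`D` a square modulo `7`, whose prime divisors are different from `3` and are either split completely in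
`ℚ(i, √2, √-7)` or inert in `ℚ(√2)` and in `ℚ(√-7)`.

For every `D ≠ 1` of the class, without any assumption on the rank or on the Tate-Shafarevich group,
the number `x_D = L(E_D, 1) (#E_D(ℚ)_tors)² / (Ω ∏ c_p)` is rational, `x_D = w y²` with an integer `y` and
a 2-adic unit `w`, and it is odd if and only if `Ш_0(E_D)` is odd, that is, `E_D(ℚ)` is finite and
`Ш(E_D)[2] = 0`: the formula `x_D = Ш_0(E_D)` holds modulo two. Both sides are odd if and only if an
explicit symmetric-type matrix over `𝔽₂` of the Legendre symbols of the prime divisors of `D` is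
nonsingular.  This happens for a proportion of exactly `c = ∏_{i ≥ 0} (1 - 2^{-(2 i + 1)}) = 0.419...` of
the positive `D`, and also of the negative `D`, of the class; for these `D` the 2-part of the formula
holds with `L(E_D, 1) ≠ 0`.
-/

set_option autoImplicit false
set_option linter.style.haveILetI false

open MeasureTheory Filter Topology

namespace Pool.Agent.Results.MP_9c97e9_nt.FormulaModTwo

open scoped Classical

open Pool.Agent.TH841.SH.D (Sha)

/-- The quadratic twist `E_D` of `X_0(14)` (`D = 1` modulo `4`), with its global minimal equation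
`y² + x y + y = x³ + ((D - 1)/4) x² + ((9 D² - 1)/2) x - (23 D³ + 1)/4`.  It is isomorphic to
`Y² = X (X² + 13 D X + 128 D²)` by `X = 4 (x - D)`, `Y = 4 (2 y + x + 1)`. -/
def twist (D : ℤ) : WeierstrassCurve ℤ :=
  ⟨1, (D - 1) / 4, 1, (9 * D ^ 2 - 1) / 2, -((23 * D ^ 3 + 1) / 4)⟩

/-- `W` is a global minimal Weierstrass equation: `Δ ≠ 0` and `|Δ|` is minimal among the integral
Weierstrass equations of the same curve over `ℚ`. -/
def IsGloballyMinimal (W : WeierstrassCurve ℤ) : Prop :=
  W.Δ ≠ 0 ∧ ∀ (W' : WeierstrassCurve ℤ) (C : WeierstrassCurve.VariableChange ℚ),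
    C • (W.map (Int.castRingHom ℚ)) = W'.map (Int.castRingHom ℚ) → |W.Δ| ≤ |W'.Δ|

/-- The number of the affine points modulo `l`. -/
noncomputable def pts (W : WeierstrassCurve ℤ) (l : ℕ) : ℕ :=
  Nat.card {P : ZMod l × ZMod l //
    (W.map (Int.castRingHom (ZMod l))).toAffine.Equation P.1 P.2}

/-- `a_l = l + 1 - #W(𝔽_l)`, the points of the reduction of `W` modulo `l` counted with the point at
infinity and the possible singular point.  (For a minimal equation this is `0`, `1`, `-1` if the
reduction is additive, split or nonsplit multiplicative.) -/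
noncomputable def a (W : WeierstrassCurve ℤ) (l : ℕ) : ℤ := l - pts W l

/-- `L` is the analytic continuation to the complex plane of the Hasse-Weil `L`-function of `W`. -/
def IsLFunction (W : WeierstrassCurve ℤ) (L : ℂ → ℂ) : Prop :=
  Differentiable ℂ L ∧ ∀ s : ℂ, 3 / 2 < s.re →
    HasProd (fun p : Nat.Primes => (1 - (a W p : ℂ) * ((p : ℕ) : ℂ) ^ (-s) +
      (if ((p : ℕ) : ℤ) ∣ W.Δ then 0 else ((p : ℕ) : ℂ) ^ (1 - 2 * s)))⁻¹) (L s)

/-- `4 x³ + b₂ x² + 2 b₄ x + b₆ = (2 y + a₁ x + a₃)²` as a function of `x`. -/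
noncomputable def cubic (W : WeierstrassCurve ℤ) (x : ℝ) : ℝ :=
  4 * x ^ 3 + W.b₂ * x ^ 2 + 2 * W.b₄ * x + W.b₆

/-- The real period `∫_{W(ℝ)} |ω|` of `ω = dx / (2 y + a₁ x + a₃)`, as an integral over `x`: two real
points lie over every `x` with `cubic W x > 0`. -/
noncomputable def Omega (W : WeierstrassCurve ℤ) : ℝ :=
  ∫ x in {x : ℝ | 0 < cubic W x}, 2 / Real.sqrt (cubic W x)

/-- `(x, y)` is integral and reduces to a singular point modulo `p`: both partial derivatives of
`y² + a₁ x y + a₃ y - x³ - a₂ x² - a₄ x - a₆` vanish modulo `p`. -/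
def SingularReduction (W : WeierstrassCurve ℤ) (p : ℕ) [Fact p.Prime] (x y : ℚ_[p]) : Prop :=
  ‖x‖ ≤ 1 ∧ ‖y‖ ≤ 1 ∧ ‖W.a₁ * y - (3 * x ^ 2 + 2 * W.a₂ * x + W.a₄)‖ < 1 ∧
    ‖2 * y + W.a₁ * x + W.a₃‖ < 1

/-- `E⁰(ℚ_p)`, the group of the points over `ℚ_p` with nonsingular reduction. -/
noncomputable def nonsing (W : WeierstrassCurve ℤ) (p : ℕ) [Fact p.Prime] :
    AddSubgroup (W.map (Int.castRingHom ℚ_[p])).toAffine.Point :=
  AddSubgroup.closure {P | ∀ (x y : ℚ_[p]) (h), P = .some x y h → ¬ SingularReduction W p x y}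

/-- The Tamagawa number `c_p = [E(ℚ_p) : E⁰(ℚ_p)]` of a minimal equation. -/
noncomputable def c (W : WeierstrassCurve ℤ) (p : ℕ) [Fact p.Prime] : ℕ := (nonsing W p).index

/-- The product of the Tamagawa numbers at the primes that divide the discriminant (these are the
primes that divide the conductor if the equation is minimal). -/
noncomputable def Tam (W : WeierstrassCurve ℤ) : ℕ :=
  ∏ p ∈ W.Δ.natAbs.primeFactors, if h : p.Prime then (haveI := Fact.mk h; c W p) else 1

/-- The curve over `ℚ`. -/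
abbrev overQ (W : WeierstrassCurve ℤ) : WeierstrassCurve ℚ := W.map (Int.castRingHom ℚ)

/-- The order of the group of the torsion points over `ℚ`. -/
noncomputable def tors (W : WeierstrassCurve ℤ) : ℕ :=
  Nat.card (AddCommGroup.torsion (overQ W).toAffine.Point)

/-- `x` is the analytic order of the Tate-Shafarevich group: `L(W, 1) = x Ω ∏ c_p / (#W(ℚ)_tors)²`. -/
def IsAnalyticSha (W : WeierstrassCurve ℤ) (x : ℚ) : Prop :=
  ∃ L : ℂ → ℂ, IsLFunction W L ∧
    L 1 = (((x : ℝ) * (Omega W * Tam W / (tors W : ℝ) ^ 2) : ℝ) : ℂ)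

/-- `Ш_0(W)` is odd: `W(ℚ)` is finite (the rank is zero) and `Ш(W)` has no element of order two. -/
def OddSha (W : WeierstrassCurve ℤ) : Prop :=
  Finite (overQ W).toAffine.Point ∧ ∀ x : Sha (overQ W), 2 • x = 0 → x = 0

/-! ### The class of the twists -/

/-- primes which split completely in `ℚ(i, √2, √-7)` -/
def Split (p : ℕ) : Prop := p.Prime ∧ p % 8 = 1 ∧ (p % 7 = 1 ∨ p % 7 = 2 ∨ p % 7 = 4)

/-- primes inert in `ℚ(√2)` and in `ℚ(√-7)` -/
def Inert (q : ℕ) : Prop :=
  q.Prime ∧ (q % 8 = 3 ∨ q % 8 = 5) ∧ (q % 7 = 3 ∨ q % 7 = 5 ∨ q % 7 = 6)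

/-- the class of the discriminants -/
def Adm (D : ℤ) : Prop := Squarefree D ∧ D % 4 = 1 ∧ (D % 7 = 1 ∨ D % 7 = 2 ∨ D % 7 = 4) ∧
  ∀ p : ℕ, p.Prime → (p : ℤ) ∣ D → p ≠ 3 ∧ (Split p ∨ Inert p)

/-- the prime factors `≡ 1 mod 8` of `D` -/
def S (D : ℤ) : Finset ℕ := D.natAbs.primeFactors.filter fun p => p % 8 = 1

/-- the matrix over `𝔽₂` with rows and columns indexed by `S D`: off the diagonal the
entry at `(p, p')` is `1` if `p'` is not a square modulo `p` and `0` otherwise; on the diagonal it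
is the number of the prime factors of `D` different from `p` which are not squares modulo `p`, plus
`1` if the number of the points of `X_0(14)` modulo `p` is not divisible by `8` -/
noncomputable def R (D : ℤ) : Matrix (S D) (S D) (ZMod 2) := Matrix.of fun i j =>
  if i = j then
    (((D.natAbs.primeFactors.filter fun r : ℕ => r ≠ (i : ℕ) ∧
      ¬ IsSquare (r : ZMod (i : ℕ))).card : ZMod 2) +
        if 8 ∣ pts (twist 1) (i : ℕ) + 1 then 0 else 1)
  else if IsSquare (((j : ℕ)) : ZMod (i : ℕ)) then 0 else 1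

/-- The `D` with `D ∈ [a, b]` in the class. -/
noncomputable def total (a b : ℤ) : ℕ := ((Finset.Icc a b).filter fun D => Adm D).card

/-- The number of those with the property `Q`. -/
noncomputable def good (Q : ℤ → Prop) (a b : ℤ) : ℕ :=
  ((Finset.Icc a b).filter fun D => Adm D ∧ Q D).card

/-- `c = ∏_{i ≥ 0} (1 - 2^{-(2 i + 1)})` -/
noncomputable def cc : ℝ := ∏' i : ℕ, (1 - (1 / 2 : ℝ) ^ (2 * i + 1))

theorem main {D : ℤ} (hD : Adm D) (h1 : D ≠ 1) :
    IsGloballyMinimal (twist D) ∧ ∃ (y : ℤ) (w : ℚ), IsAnalyticSha (twist D) (w * y ^ 2) ∧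
      padicValRat 2 w = 0 ∧ w ≠ 0 ∧ (Odd y ↔ OddSha (twist D)) ∧
      (OddSha (twist D) ↔ (R D).det ≠ 0) := by
  have hA : Pool.Agent.Y687.MQ.AdmD D := hD
  obtain ⟨⟨f, hf⟩, y, hy, hv⟩ := Pool.Agent.Y682.YQ.val hA h1
  obtain ⟨-, w, hw0, hw, hf1⟩ := hv f hf
  have hz := Pool.Agent.Y682.YQ.zer_iff hA
  have h7 : ¬ (7 : ℤ) ∣ D := by
    have := hD.2.2.1
    omega
  have hodd : OddSha (twist D) ↔ Pool.Agent.Y682.YQ.Zer D := by
    unfold OddSha Pool.Agent.Y682.YQ.Zer
    refine and_congr Iff.rfl (forall_congr' fun x => ?_)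
    rw [two_nsmul]
    rfl
  have hR : R D = Pool.Agent.Y687.MQ.matD D := by
    have hS := (Pool.Agent.Y687.MQ.of_admD hA).1
    unfold R Pool.Agent.Y687.MQ.matD
    ext i j
    simp only [Matrix.of_apply]
    have hi := hS i.1 i.2
    have h8 := hi.2.1
    have h7 := hi.2.2
    have e : pts (twist 1) (i : ℕ) + 1 = Pool.Agent.Y687.NN 1 (i : ℕ) := by
      have h1 := Pool.Agent.Z705.cnt_affCountZ (D := 1) hi.1 (by omega) (by omega) (by norm_num) (by
        intro h
        rw [Int.natAbs_one, Nat.dvd_one] at h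
        exact hi.1.one_lt.ne' h)
      unfold Pool.Agent.Y687.NN
      rw [Nat.cast_one, h1]
      rfl
    rw [e]
    rfl
  refine ⟨(Pool.Agent.Y814.BSD14.t_MIN D hD.2.1 hD.1 h7).1, y, w, ⟨f, hf, ?_⟩, hw, hw0,
    hy.trans hodd.symm, ?_⟩
  · rw [hf1]
    push_cast
    rfl
  · rw [hodd, hz, hR]
    exact Iff.rfl

/-- **Main theorem.**  Let `D ≠ 1` be in the class `Adm`.
(1) The equation of `E_D` is a global minimal one.  The `L`-function of `E_D` is entire, and the analytic
order of the Tate-Shafarevich group, the number `x` with `L(E_D, 1) = x Ω ∏ c_p / (#E_D(ℚ)_tors)²`, is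
`w y²` with an integer `y` and a rational number `w` of 2-adic valuation zero.
(2) `y` is odd if and only if `E_D(ℚ)` is finite and `Ш(E_D)[2] = 0`, if and only if the matrix `R D` over
`𝔽₂` is nonsingular.
(3) The proportion of the `D` of the class with this property is `c` among the positive and also among
the negative `D`, ordered by absolute value, and `0.4194 < c < 0.4195`. -/
theorem result :
    (∀ D : ℤ, Adm D → D ≠ 1 → IsGloballyMinimal (twist D) ∧
      ∃ (y : ℤ) (w : ℚ), IsAnalyticSha (twist D) (w * y ^ 2) ∧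
        padicValRat 2 w = 0 ∧ w ≠ 0 ∧ (Odd y ↔ OddSha (twist D)) ∧
        (OddSha (twist D) ↔ (R D).det ≠ 0)) ∧
    (0.4194 < cc ∧ cc < 0.4195) ∧
    Tendsto (fun X : ℕ => (good (fun D => OddSha (twist D)) 1 X : ℝ) / (total 1 X : ℝ)) atTop
      (𝓝 cc) ∧
    Tendsto (fun X : ℕ => (good (fun D => OddSha (twist D)) (-X) (-1) : ℝ) /
      (total (-X) (-1) : ℝ)) atTop (𝓝 cc) := by
  have hz : ∀ D : ℤ, Adm D → (OddSha (twist D) ↔ (Pool.Agent.Y687.MQ.matD D).det ≠ 0) := by
    intro D hD
    rw [← Pool.Agent.Y682.YQ.zer_iff hD]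
    unfold OddSha Pool.Agent.Y682.YQ.Zer
    refine and_congr Iff.rfl (forall_congr' fun x => ?_)
    rw [two_nsmul]
    rfl
  refine ⟨fun D hD h1 => main hD h1, Pool.Agent.Y948.CQ.t_C2.2.2.2, ?_, ?_⟩
  · have h := Pool.Agent.Y703.CQ.prop_pos
    refine h.congr fun X => congrArg₂ (fun a b : ℕ => (a : ℝ) / (b : ℝ)) ?_ ?_
    · refine congrArg Finset.card (Finset.ext fun D => ?_)
      refine (Finset.mem_filter).trans (Iff.trans ?_ (Finset.mem_filter).symm)
      exact and_congr_right fun _ => and_congr_right fun hD => (hz D hD).symm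
    · refine congrArg Finset.card (Finset.ext fun D => ?_)
      refine (Finset.mem_filter).trans (Iff.trans ?_ (Finset.mem_filter).symm)
      exact Iff.rfl
  · have h := Pool.Agent.Y703.CQ.prop_neg
    refine h.congr fun X => congrArg₂ (fun a b : ℕ => (a : ℝ) / (b : ℝ)) ?_ ?_
    · refine congrArg Finset.card (Finset.ext fun D => ?_)
      refine (Finset.mem_filter).trans (Iff.trans ?_ (Finset.mem_filter).symm)
      exact and_congr_right fun _ => and_congr_right fun hD => (hz D hD).symm
    · refine congrArg Finset.card (Finset.ext fun D => ?_)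
      refine (Finset.mem_filter).trans (Iff.trans ?_ (Finset.mem_filter).symm)
      exact Iff.rfl

end Pool.Agent.Results.MP_9c97e9_nt.FormulaModTwo
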