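import Mathlib
import Pool.Agent.Y703.CT.T1d
import Pool.Agent.Y703.CX.Fin
import Pool.Agent.X253.C3.FamQ2

/-!
# Infinite families of cubic twists over `ℚ` with the `3`-part of the formula at the central point

`E_D : y² + D y = x³` (`3`-isogenous to `x³ + y³ = D`), where `D` is cube-free, prime to `3`, not `±1`
modulo `9`, and exactly one prime `q ≡ 2` modulo `3` divides `D`.  If `E_D(ℚ)` is finite and
`Ш(E_D/ℚ)[3^∞] = 0`, there is an infinite set `Q` of primes `p ≡ 1` modulo `9` such that all the cubic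
twists `E_{D'}`, `D' = D ∏ p ^ m_p`, `p` in a finite subset `S` of `Q`, `m_p = 0, 1, 2`, are again of this kind:
`L(E_{D'}, s)` is entire, `L(E_{D'}, 1) ≠ 0`, `E_{D'}(ℚ)` is finite, `Ш(E_{D'}/ℚ)[3^∞] = 0`, and
`L(E_{D'}, 1) |E_{D'}(ℚ)|² / (Ω ∏ c_p)`, which is `|Ш|` according to the conjecture, is a unit at all the
places above `3`.  This applies to exactly the proportion `∏ (1 - 3^{-i}) = 0.5601...` of the
squarefree `D` of the class.

The formula and its criterion for a single `D` are in the starting library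
(`MP_4a9ea6_nt.ThreePartCubicTwists`, `Pool/Agent/Y703/CT`); it has there also one new prime `p` with
exponent `1` (`Pool/Agent/Y261/CT`).  New here are the infinite sets of primes all of whose products
preserve the formula, with arbitrary exponents (`Pool/Agent/X253/C3/FamQ`, `FamQ2`): by Chebotarev's
theorem there is a prime `l` of `ℚ(ω)` of norm `p ≡ 1` modulo `9` such that all the prime divisors of `D`
but `q`, and the previous primes and their conjugates, are cubes modulo `l`, and `q` is not; then `l` and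
its conjugate can be added to the Laplacian of the cubic residue symbols without changing its kernel.
-/

set_option autoImplicit false

open scoped Classical

namespace Pool.Agent.Results.MP_9c97e9_nt.CubicFamiliesOverQ

open Pool.Agent.Y700 (Omega tam)
open Pool.Agent.W97.MT (IsGloballyMinimal ap)
open Pool.Agent.TH841.SH.D (Sha)

/-- The equation `y² + D y = x³` over `ℤ`. -/
def equation (D : ℕ) : WeierstrassCurve ℤ := ⟨0, 0, (D : ℤ), 0, 0⟩

/-- The curve `E_D` over `ℚ`. -/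
abbrev curve (D : ℕ) : WeierstrassCurve ℚ := (equation D).map (Int.castRingHom ℚ)

/-- `D` is cube-free, prime to `3`, not `±1` modulo `9`, and exactly one prime `q ≡ 2` modulo `3`
divides `D`. -/
def InClass (D : ℕ) : Prop :=
  (D ≠ 0 ∧ ¬ 3 ∣ D ∧ ∀ p : ℕ, p.Prime → ¬ p ^ 3 ∣ D) ∧ D % 9 ≠ 1 ∧ D % 9 ≠ 8 ∧
    ∃ q : ℕ, q.Prime ∧ q % 3 = 2 ∧ q ∣ D ∧ ∀ p : ℕ, p.Prime → p ∣ D → p ≠ q → p % 3 = 1

/-- `E_D(ℚ)` is finite and the `3`-primary part of `Ш(E_D/ℚ)` is trivial. -/
def FiniteAndTrivial (D : ℕ) : Prop :=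
  Finite (curve D).toAffine.Point ∧ ∀ (n : ℕ) (x : Sha (curve D)), 3 ^ n • x = 0 → x = 0

/-- The product of the Tamagawa numbers at the primes dividing the discriminant. -/
noncomputable def tamagawaProduct (W : WeierstrassCurve ℤ) : ℕ :=
  ∏ p ∈ W.Δ.natAbs.primeFactors, if h : p.Prime then (haveI := Fact.mk h; tam W p) else 1

/-- `f` is entire and equal to the Euler product of `W` for `Re s > 3/2`. -/
def IsLFunction (W : WeierstrassCurve ℤ) (f : ℂ → ℂ) : Prop :=
  Differentiable ℂ f ∧ ∀ s : ℂ, 3 / 2 < s.re →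
    HasProd (fun p : Nat.Primes => (1 - (ap W p : ℂ) * ((p : ℕ) : ℂ) ^ (-s) +
      (if ((p : ℕ) : ℤ) ∣ W.Δ then 0 else ((p : ℕ) : ℂ) ^ (1 - 2 * s)))⁻¹) (f s)

/-- `u` is a unit at all places above `3`: it is not zero, and for some `n` prime to `3` the
numbers `n u` and `n / u` are algebraic integers. -/
def ThreeUnit (u : ℂ) : Prop :=
  u ≠ 0 ∧ ∃ n : ℤ, IsCoprime 3 n ∧ IsIntegral ℤ ((n : ℂ) * u) ∧ IsIntegral ℤ ((n : ℂ) * u⁻¹)

/-- The `3`-part of the formula in rank `0`: the equation is globally minimal, `E_D(ℚ)` is finite,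
`Ш(E_D/ℚ)[3^∞] = 0`, `L(E_D, s)` is entire, `L(E_D, 1) ≠ 0`, and
`L(E_D, 1) = u Ω ∏ c_p / |E_D(ℚ)|²` for a number `u` that is a unit at all the places above `3`. -/
def ThreePart (D : ℕ) : Prop :=
  FiniteAndTrivial D ∧ IsGloballyMinimal (equation D) ∧
  ∃ (f : ℂ → ℂ) (u : ℂ), IsLFunction (equation D) f ∧ f 1 ≠ 0 ∧ ThreeUnit u ∧
    f 1 = u * (((Omega (equation D) : ℝ) : ℂ) * (tamagawaProduct (equation D) : ℂ) /
      (Nat.card (curve D).toAffine.Point : ℂ) ^ 2)

/-- There is an infinite set `Q` of primes `p ≡ 1` modulo `9` that do not divide `D`, such that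
`D' = D ∏ p ^ m_p`, `p ∈ S`, is in the class and satisfies `ThreePart` for all finite subsets `S` of `Q`
and all exponents `m_p = 0, 1, 2`. -/
def HasFamily (D : ℕ) : Prop :=
  ∃ Q : Set ℕ, Q.Infinite ∧ (∀ p ∈ Q, p.Prime ∧ p % 9 = 1 ∧ ¬ p ∣ D) ∧
    ∀ S : Finset ℕ, (∀ p ∈ S, p ∈ Q) → ∀ m : ℕ → ℕ, (∀ p ∈ S, m p < 3) →
      InClass (D * ∏ p ∈ S, p ^ m p) ∧ ThreePart (D * ∏ p ∈ S, p ^ m p)

lemma threePart_of {D : ℕ} (hC : Pool.Agent.Y703.CT.Cls D) (hN : Pool.Agent.Y703.CT.NoSplit D) :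
    ThreePart D := by
  obtain ⟨hmin, f, hf, u, hu, -, hu2, hu3⟩ := Pool.Agent.Y703.CT.fin_all hC
  have hT : FiniteAndTrivial D := hu3.2 hN
  have hU : Pool.Agent.Y703.CT.ThreeUnit u := hu2.2 (hu3.2 hN)
  have htors : Pool.Agent.Y703.CT.tors D = Nat.card (curve D).toAffine.Point := by
    have hfin : Finite (Pool.Agent.Y703.CT.EQ
        (Pool.Agent.Y703.CT.WD D)).toAffine.Point := hT.1
    unfold Pool.Agent.Y703.CT.tors
    have : AddCommGroup.torsion (Pool.Agent.Y703.CT.EQ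
        (Pool.Agent.Y703.CT.WD D)).toAffine.Point = ⊤ := by
      rw [eq_top_iff]
      intro x _
      exact isOfFinAddOrder_of_finite x
    rw [this]
    exact Nat.card_congr AddSubgroup.topEquiv.toEquiv
  have hT0 : ((Omega (equation D) : ℝ) : ℂ) * (tamagawaProduct (equation D) : ℂ) /
      (Nat.card (curve D).toAffine.Point : ℂ) ^ 2 ≠ 0 := by
    have hB := hC.1
    have hfin := hT.1
    have hpos : 0 < D := Nat.pos_of_ne_zero hB.1
    have hper : Omega (equation D) = √3 * (Real.Gamma (1 / 3) ^ 3 / (2 * Real.pi)) /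
      (D : ℝ) ^ (1 / 3 : ℝ) := Pool.Agent.Y333.CT.per D hpos
    obtain ⟨m, hm3, hm⟩ := Pool.Agent.Y145.CT.tamThm Pool.Agent.Y809.BSD14.t_E0 D hB
    have hm' : tamagawaProduct (equation D) = 3 ^ D.primeFactors.card * m := hm
    have hm0 : m ≠ 0 := by
      rintro rfl
      exact hm3 (dvd_zero 3)
    have hO : Omega (equation D) ≠ 0 := by
      rw [hper]
      have hD' : (0 : ℝ) < D := by exact_mod_cast hpos
      have h1 : (0 : ℝ) < Real.Gamma (1 / 3) := Real.Gamma_pos_of_pos (by norm_num)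
      have h2 : (0 : ℝ) < (D : ℝ) ^ (1 / 3 : ℝ) := Real.rpow_pos_of_pos hD' _
      have h3 := Real.pi_pos
      positivity
    have hcard : Nat.card (curve D).toAffine.Point ≠ 0 := Nat.card_pos.ne'
    refine div_ne_zero (mul_ne_zero (Complex.ofReal_ne_zero.2 hO) ?_) (pow_ne_zero _ ?_)
    · rw [hm']
      exact_mod_cast mul_ne_zero (pow_ne_zero _ (by norm_num)) hm0
    · exact_mod_cast hcard
  refine ⟨hT, hmin, f, u, hf, ?_, hU, ?_⟩
  · have h1 := hu
    rw [htors] at h1
    rw [h1]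
    exact mul_ne_zero hU.1 hT0
  · rw [← htors]
    exact hu

/-- **Infinite families over `ℚ`.** Every `D` of the class with `E_D(ℚ)` finite and
`Ш(E_D/ℚ)[3^∞] = 0` has a family; this is the case for exactly the proportion `∏ (1 - 3^{-i})` of the
squarefree `D` of the class. -/
theorem result :
    (∀ D : ℕ, InClass D → FiniteAndTrivial D → HasFamily D) ∧
    Filter.Tendsto (fun X : ℕ =>
        (((Finset.Icc 1 X).filter fun D => Squarefree D ∧ InClass D ∧ FiniteAndTrivial D).card : ℝ) /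
        (((Finset.Icc 1 X).filter fun D => Squarefree D ∧ InClass D).card : ℝ)) Filter.atTop
      (nhds (∏' i : ℕ, (1 - (1 / 3 : ℝ) ^ (i + 1)))) := by
  refine ⟨fun D hD hT => ?_, ?_⟩
  · obtain ⟨-, f, -, u, -, -, -, hu3⟩ := Pool.Agent.Y703.CT.fin_all (D := D) hD
    have hN : Pool.Agent.Y703.CT.NoSplit D := hu3.1 hT
    obtain ⟨Q, h1, h2, h3⟩ := Pool.Agent.X253.C3.famQ (D := D) hD hN
    refine ⟨Q, h1, h2, fun S hS m hm => ?_⟩
    obtain ⟨h4, h5, -⟩ := h3 S hS m hm
    exact ⟨h4, threePart_of h4 h5⟩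
  · have h := Pool.Agent.Y703.CX.t_DEN
    unfold Pool.Agent.Y703.CX.S_DEN Pool.Agent.Y703.CX.c3 at h
    have e : ∀ X : ℕ, (Finset.Icc 1 X).filter
          (fun D => Squarefree D ∧ InClass D ∧ FiniteAndTrivial D) =
        (Finset.Icc 1 X).filter fun D => Squarefree D ∧ Pool.Agent.Y703.CT.Cls D ∧
          Pool.Agent.Y703.CT.NoSplit D := by
      intro X
      refine Finset.filter_congr fun D _ => ?_
      refine and_congr_right fun _ => and_congr_right fun hC => ?_
      obtain ⟨-, f, -, u, -, -, -, h2⟩ := Pool.Agent.Y703.CT.fin_all (D := D) hC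
      exact h2
    simp only [e]
    exact h

end Pool.Agent.Results.MP_9c97e9_nt.CubicFamiliesOverQ
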