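import Mathlib
import Pool.Agent.Y703.CT.T1d
import Pool.Agent.X253.JC.Fin

/-!
# The 3-part of the formula at the central point for all the cubic twists by given primes: the exact
joint distribution

`E_D : y² + D y = x³` (`3`-isogenous to `x³ + y³ = D`), where `D` is cube-free, prime to `3`, not `±1`
modulo `9`, and exactly one prime `q ≡ 2` modulo `3` divides `D` (the class).  Let `T` be a finite set of
primes `p ≡ 1` modulo `9`.  For `D` in the class, prime to `T`, we consider simultaneously the `3 ^ |T|`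
cubic twists `E_{D_ε}`, `D_ε = D ∏ p ^ ε_p`, `ε ∈ {0, 1, 2} ^ T`, which are again in the class.

We determine the distribution of the set of those `ε` for which `E_{D_ε}(ℚ)` is finite,
`Ш(E_{D_ε}/ℚ)[3^∞] = 0`, `L(E_{D_ε}, s)` is entire, `L(E_{D_ε}, 1) ≠ 0`, and
`L(E_{D_ε}, 1) |E_{D_ε}(ℚ)|² / (Ω ∏ c_p)`, which is `|Ш|` according to the conjecture, is a unit at all the
places above `3`: when `D` runs over the squarefree elements of the class that are prime to `T`, the
`3 ^ |T|` events are asymptotically independent, with the probability `c = ∏ (1 - 3^{-i}) = 0.5601...`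
each.  So every subset `A` of `{0, 1, 2} ^ T` is the set of these `ε` for exactly the proportion
`c ^ |A| (1 - c) ^ (3 ^ |T| - |A|)` of the `D`; in particular the statement holds simultaneously for all the
`3 ^ |T|` twists for exactly the proportion `c ^ (3 ^ |T|) > 0`.

The case `T = ∅` (one curve for each `D`) is in the starting library
(`MP_4a9ea6_nt.ThreePartCubicTwists`, `Pool/Agent/Y703/CX`).  The new part is the directory
`Pool/Agent/X253/JC`.  After the elimination of one variable the matrices of the `3`-isogeny descents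
of the twists are `R + Δ_ε` with one random matrix `R` (the cubic residue symbols of the large primes,
which are equidistributed by the large sieve) and fixed diagonal matrices `Δ_ε` (the symbols of
the elements of `T`).  We expose all the rows but a bounded number; a first moment bound shows that the
kernels for the different `ε` are then in general position with high probability, because for each pair
`ε ≠ ε'` the diagonals of `Δ_ε`, `Δ_{ε'}` differ in many places, and then the last rows give independent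
uniform matrices (`JC/LA1`-`LA5`).  The exceptional sets are bounded in `JC/FEW`.
-/

set_option autoImplicit false

open scoped Classical

namespace Pool.Agent.Results.MP_9c97e9_nt.JointCubicTwists

open Pool.Agent.Y700 (Omega tam)
open Pool.Agent.W97.MT (IsGloballyMinimal ap)
open Pool.Agent.TH841.SH.D (Sha)

/-- The equation `y² + D y = x³` over `ℤ`. -/
def equation (D : ℕ) : WeierstrassCurve ℤ := ⟨0, 0, (D : ℤ), 0, 0⟩

/-- The curve `E_D` over `ℚ`. -/
abbrev curve (D : ℕ) : WeierstrassCurve ℚ := (equation D).map (Int.castRingHom ℚ)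

/-- `D` is cube-free, prime to `3`, not `±1` modulo `9`, and exactly one prime `q ≡ 2` modulo `3`
divides `D`. -/
def InClass (D : ℕ) : Prop :=
  (D ≠ 0 ∧ ¬ 3 ∣ D ∧ ∀ p : ℕ, p.Prime → ¬ p ^ 3 ∣ D) ∧ D % 9 ≠ 1 ∧ D % 9 ≠ 8 ∧
    ∃ q : ℕ, q.Prime ∧ q % 3 = 2 ∧ q ∣ D ∧ ∀ p : ℕ, p.Prime → p ∣ D → p ≠ q → p % 3 = 1

/-- `E_D(ℚ)` is finite and the `3`-primary part of `Ш(E_D/ℚ)` is trivial. -/
def FiniteAndTrivial (D : ℕ) : Prop :=
  Finite (curve D).toAffine.Point ∧ ∀ (n : ℕ) (x : Sha (curve D)), 3 ^ n • x = 0 → x = 0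

/-- The product of the Tamagawa numbers at the primes dividing the discriminant. -/
noncomputable def tamagawaProduct (W : WeierstrassCurve ℤ) : ℕ :=
  ∏ p ∈ W.Δ.natAbs.primeFactors, if h : p.Prime then (haveI := Fact.mk h; tam W p) else 1

/-- `f` is entire and equal to the Euler product of `W` for `Re s > 3/2`. -/
def IsLFunction (W : WeierstrassCurve ℤ) (f : ℂ → ℂ) : Prop :=
  Differentiable ℂ f ∧ ∀ s : ℂ, 3 / 2 < s.re →
    HasProd (fun p : Nat.Primes => (1 - (ap W p : ℂ) * ((p : ℕ) : ℂ) ^ (-s) +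
      (if ((p : ℕ) : ℤ) ∣ W.Δ then 0 else ((p : ℕ) : ℂ) ^ (1 - 2 * s)))⁻¹) (f s)

/-- `u` is a unit at all places above `3`: it is not zero, and for some `n` prime to `3` the
numbers `n u` and `n / u` are algebraic integers. -/
def ThreeUnit (u : ℂ) : Prop :=
  u ≠ 0 ∧ ∃ n : ℤ, IsCoprime 3 n ∧ IsIntegral ℤ ((n : ℂ) * u) ∧ IsIntegral ℤ ((n : ℂ) * u⁻¹)

/-- The `3`-part of the formula in rank `0`: the equation is globally minimal, `E_D(ℚ)` is finite,
`Ш(E_D/ℚ)[3^∞] = 0`, `L(E_D, s)` is entire, `L(E_D, 1) ≠ 0`, and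
`L(E_D, 1) = u Ω ∏ c_p / |E_D(ℚ)|²` for a number `u` that is a unit at all the places above `3`. -/
def ThreePart (D : ℕ) : Prop :=
  FiniteAndTrivial D ∧ IsGloballyMinimal (equation D) ∧
  ∃ (f : ℂ → ℂ) (u : ℂ), IsLFunction (equation D) f ∧ f 1 ≠ 0 ∧ ThreeUnit u ∧
    f 1 = u * (((Omega (equation D) : ℝ) : ℂ) * (tamagawaProduct (equation D) : ℂ) /
      (Nat.card (curve D).toAffine.Point : ℂ) ^ 2)

/-- The cubic twist of `D` by the product of the `p ^ ε_p`, `p ∈ T`. -/
def twist (T : Finset ℕ) (D : ℕ) (ε : T → Fin 3) : ℕ := D * ∏ p : T, (p : ℕ) ^ (ε p : ℕ)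

/-- The squarefree `D ≤ X` of the class that are prime to the elements of `T`. -/
noncomputable def family (T : Finset ℕ) (X : ℕ) : Finset ℕ :=
  (Finset.Icc 1 X).filter fun D => Squarefree D ∧ InClass D ∧ ∀ p ∈ T, ¬ p ∣ D

/-- The set of the `ε` with `ThreePart (twist T D ε)` is `A`. -/
def HasPattern (T : Finset ℕ) (A : Finset (T → Fin 3)) (D : ℕ) : Prop :=
  ∀ ε : T → Fin 3, ThreePart (twist T D ε) ↔ ε ∈ A

/-- The constant `∏ (1 - 3^{-i}) = 0.5601...`. -/
noncomputable def c : ℝ := ∏' i : ℕ, (1 - (1 / 3 : ℝ) ^ (i + 1))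

lemma threePart_of {D : ℕ} (hC : Pool.Agent.Y703.CT.Cls D) (hN : Pool.Agent.Y703.CT.NoSplit D) :
    ThreePart D := by
  obtain ⟨hmin, f, hf, u, hu, -, hu2, hu3⟩ := Pool.Agent.Y703.CT.fin_all hC
  have hT : FiniteAndTrivial D := hu3.2 hN
  have hU : Pool.Agent.Y703.CT.ThreeUnit u := hu2.2 (hu3.2 hN)
  have htors : Pool.Agent.Y703.CT.tors D = Nat.card (curve D).toAffine.Point := by
    have hfin : Finite (Pool.Agent.Y703.CT.EQ
        (Pool.Agent.Y703.CT.WD D)).toAffine.Point := hT.1
    unfold Pool.Agent.Y703.CT.tors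
    have : AddCommGroup.torsion (Pool.Agent.Y703.CT.EQ
        (Pool.Agent.Y703.CT.WD D)).toAffine.Point = ⊤ := by
      rw [eq_top_iff]
      intro x _
      exact isOfFinAddOrder_of_finite x
    rw [this]
    exact Nat.card_congr AddSubgroup.topEquiv.toEquiv
  have hT0 : ((Omega (equation D) : ℝ) : ℂ) * (tamagawaProduct (equation D) : ℂ) /
      (Nat.card (curve D).toAffine.Point : ℂ) ^ 2 ≠ 0 := by
    have hB := hC.1
    have hfin := hT.1
    have hpos : 0 < D := Nat.pos_of_ne_zero hB.1
    have hper : Omega (equation D) = √3 * (Real.Gamma (1 / 3) ^ 3 / (2 * Real.pi)) /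
      (D : ℝ) ^ (1 / 3 : ℝ) := Pool.Agent.Y333.CT.per D hpos
    obtain ⟨m, hm3, hm⟩ := Pool.Agent.Y145.CT.tamThm Pool.Agent.Y809.BSD14.t_E0 D hB
    have hm' : tamagawaProduct (equation D) = 3 ^ D.primeFactors.card * m := hm
    have hm0 : m ≠ 0 := by
      rintro rfl
      exact hm3 (dvd_zero 3)
    have hO : Omega (equation D) ≠ 0 := by
      rw [hper]
      have hD' : (0 : ℝ) < D := by exact_mod_cast hpos
      have h1 : (0 : ℝ) < Real.Gamma (1 / 3) := Real.Gamma_pos_of_pos (by norm_num)
      have h2 : (0 : ℝ) < (D : ℝ) ^ (1 / 3 : ℝ) := Real.rpow_pos_of_pos hD' _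
      have h3 := Real.pi_pos
      positivity
    have hcard : Nat.card (curve D).toAffine.Point ≠ 0 := Nat.card_pos.ne'
    refine div_ne_zero (mul_ne_zero (Complex.ofReal_ne_zero.2 hO) ?_) (pow_ne_zero _ ?_)
    · rw [hm']
      exact_mod_cast mul_ne_zero (pow_ne_zero _ (by norm_num)) hm0
    · exact_mod_cast hcard
  refine ⟨hT, hmin, f, u, hf, ?_, hU, ?_⟩
  · have h1 := hu
    rw [htors] at h1
    rw [h1]
    exact mul_ne_zero hU.1 hT0
  · rw [← htors]
    exact hu

lemma threePart_iff {D : ℕ} (hC : InClass D) : ThreePart D ↔ Pool.Agent.Y703.CT.NoSplit D := by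
  constructor
  · intro h
    obtain ⟨-, f, -, u, -, -, -, hu3⟩ := Pool.Agent.Y703.CT.fin_all (D := D) hC
    exact hu3.1 h.1
  · exact threePart_of hC

/-- **The joint distribution.** Let `T` be a finite set of primes `≡ 1` modulo `9`. For all `D` in the
class, prime to `T`, the twists are in the class, and `ThreePart` holds for a twist if and only if
its group of rational points is finite and the `3`-primary part of its Tate-Shafarevich group is
trivial. For each set `A` of exponent vectors the proportion of the squarefree `D` of the class, prime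
to `T`, for which `ThreePart` holds exactly for the twists by the elements of `A` is
`c ^ |A| (1 - c) ^ (3 ^ |T| - |A|)`; the proportion of those for which it holds for all the elements
of `A` is `c ^ |A|`. -/
theorem result : ∀ T : Finset ℕ, (∀ p ∈ T, p.Prime ∧ p % 9 = 1) →
    (∀ D : ℕ, InClass D → (∀ p ∈ T, ¬ p ∣ D) → ∀ ε : T → Fin 3, InClass (twist T D ε) ∧
      (ThreePart (twist T D ε) ↔ FiniteAndTrivial (twist T D ε))) ∧
    ∀ A : Finset (T → Fin 3),
      Filter.Tendsto (fun X : ℕ => (((family T X).filter (HasPattern T A)).card : ℝ) /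
        ((family T X).card : ℝ)) Filter.atTop
        (nhds (c ^ A.card * (1 - c) ^ (3 ^ T.card - A.card))) ∧
      Filter.Tendsto (fun X : ℕ =>
        (((family T X).filter fun D => A ⊆ Finset.univ.filter fun ε =>
          ThreePart (twist T D ε)).card : ℝ) / ((family T X).card : ℝ)) Filter.atTop
        (nhds (c ^ A.card)) := by
  intro T hT
  have hcl : ∀ D : ℕ, InClass D → (∀ p ∈ T, ¬ p ∣ D) → ∀ ε : T → Fin 3,
      InClass (twist T D ε) := fun D hD hTD ε => Pool.Agent.X253.JC.tw_cls hT hD hTD ε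
  refine ⟨fun D hD hTD ε => ⟨hcl D hD hTD ε, fun h => h.1, fun h => ?_⟩, fun A => ⟨?_, ?_⟩⟩
  · obtain ⟨-, f, -, u, -, -, -, hu3⟩ := Pool.Agent.Y703.CT.fin_all (D := twist T D ε)
      (hcl D hD hTD ε)
    exact threePart_of (hcl D hD hTD ε) (hu3.1 h)
  · refine (Pool.Agent.X253.JC.distr hT A).congr fun X => ?_
    congr 3
    refine Finset.filter_congr fun D hD => ?_
    have hD' := (Finset.mem_filter.1 hD).2
    exact forall_congr' fun ε => iff_congr (threePart_iff (hcl D hD'.2.1 hD'.2.2 ε)).symm Iff.rfl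
  · refine (Pool.Agent.X253.JC.joint hT A).congr fun X => ?_
    congr 3
    refine Finset.filter_congr fun D hD => ?_
    have hD' := (Finset.mem_filter.1 hD).2
    constructor
    · intro h ε hε
      exact Finset.mem_filter.2 ⟨Finset.mem_univ _,
        (threePart_iff (hcl D hD'.2.1 hD'.2.2 ε)).2 (h ε hε)⟩
    · intro h ε hε
      exact (threePart_iff (hcl D hD'.2.1 hD'.2.2 ε)).1 (Finset.mem_filter.1 (h hε)).2

end Pool.Agent.Results.MP_9c97e9_nt.JointCubicTwists
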