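import Pool.Agent.X252.LY

/-!
# The central values of the quadratic twists of an elliptic curve with least 2-adic valuation

`E : y² = x³ + a x + b` is an elliptic curve over `ℚ`, given with its newform `f`, and `H` is a group of
quadratic Dirichlet characters (including the trivial one) of squarefree conductors composed of primes
`q ∤ 2Δ` for which `#E(ℤ/q)` is odd.  For the character `χ` of the quadratic field of discriminant `D`
the number

`x(χ) = g(χ) L(f, χ, 1) = √D L(E_D, 1)`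

is, up to a factor that does not depend on `D` (except for its sign), the quotient of the central value
`L(E_D, 1)` of the twist `E_D` by its real period; it lies in the period lattice `Λ` of `f`, the group
generated by the numbers `2πi ∫_{i∞}^r f(z) dz`.  By the formula of Birch and Swinnerton-Dyer this number
should be `#Ш(E_D) ∏ c_p / (#E_D(ℚ)_tors)²`, or zero.

Theorem. If `x(χ) ≠ 0` for some `χ` in `H`, then there is a largest `μ` such that `x(χ) ∈ 2^μ Λ` for all
`χ` in `H`; `μ ≤ V` if `x(χ0) ∉ 2^(V+1) Λ` for some `χ0` in `H`, with `V` independent of `H`. Let `M` be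
the set of the `χ` in `H` with `x(χ) ∉ 2^(μ+1) Λ`, the twists of least valuation.

* (Congruences) `∑_T x(χ ∏_{j ∈ T} χ_j) ∈ 2^(μ+1) Λ` for all `χ, χ_1, …, χ_k` in `H` with `k > μ`, where
  `T` runs through the subsets of `{1, …, k}`.
* (Density in all cosets) If a coset `χ U` of a finite subgroup `U` of `H` meets `M`, then at least
  `2^(-μ) |U|` elements of the coset are in `M`.
* (Rigidity) If exactly `2^(-μ) |U|` elements of the coset `χ U` are in `M`, then they form a coset of a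
  subgroup of `U` of index `2^μ`.
* (Covering) There is a subgroup `K` of `H` with at most `2^μ` elements such that `M` meets every coset
  of `K`.
* (Counting) There is a `B` such that the number of `χ` in `M` with conductor at most `B X` is at least
  `2^(-μ)` times the number of `χ` in `H` with conductor at most `X`, for all `X`.

For all twists in `M`, and these are a positive proportion, `L(E_D, 1) ≠ 0`, so that `E_D(ℚ)` and
`Ш(E_D)` are finite (Gross-Zagier, Kolyvagin).  No assumption is made on the Galois representation `E[2]`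
or on the 2-adic valuation of `L(E, 1)`.

The proof.  By the earlier library (`Pool.Agent.Y18.LP`) differences of order `k` of `x` are divisible by
`2^k` up to odd Euler factors.  So `x / 2^μ` modulo `2` is a polynomial function of degree at most `μ` on
`H`.  The density is the Reed-Muller bound (`Pool.Agent.X252.RM`), the rigidity follows from the bound for
the first differences (`Pool.Agent.X252.LY`).
-/

set_option autoImplicit false

open UpperHalfPlane MatrixGroups CongruenceSubgroup NumberField IsDedekindDomain Topology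

namespace Pool.Agent.Results.MP_9c97e9_nt.LeastValuationOfTwists

/-- `N_p`: the number of pairs `(x, y) ∈ (ℤ/p)²` with `y² = x³ + a x + b`. -/
noncomputable def pointCount (a b : ℤ) (p : ℕ) : ℕ :=
  Nat.card {q : ZMod p × ZMod p // q.2 ^ 2 = q.1 ^ 3 + (a : ZMod p) * q.1 + (b : ZMod p)}

/-- `p` is a prime not dividing `2 Δ`, `Δ = -4 a³ - 27 b²`. -/
def GoodPrime (a b : ℤ) (p : ℕ) : Prop :=
  p.Prime ∧ ¬ ((p : ℤ) ∣ 2 * (-4 * a ^ 3 - 27 * b ^ 2))

/-- `q` is a prime, `q ∤ 2 Δ`, and `l` does not divide the number `N_q + 1` of the points of `E` over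
`ℤ/q` (with the point at infinity). -/
def Admissible (a b : ℤ) (l q : ℕ) : Prop := GoodPrime a b q ∧ ¬ l ∣ pointCount a b q + 1

/-- The families `c = (c_q)` of characters `c_q` of the groups `(ℤ/q)ˣ`.  The family with `c_q = 1`
except for the primes `q` of a finite set stands for the Dirichlet character `χ_c = ∏ c_q` of
squarefree conductor; this is an isomorphism of groups. -/
abbrev Fam : Type := (q : ℕ) → (ZMod q)ˣ →* ℂˣ

open Classical in
/-- The set of the `q` with `c_q ≠ 1` (if it is finite). -/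
noncomputable def supp (c : Fam) : Finset ℕ :=
  if h : {q | c q ≠ 1}.Finite then h.toFinset else ∅

/-- The conductor of `χ_c`. -/
noncomputable def conductor (c : Fam) : ℕ := ∏ q ∈ supp c, q

/-- The value `χ_c(m)`. -/
noncomputable def value (c : Fam) (m : ℕ) : ℂ :=
  ∏ q ∈ supp c, if h : m.Coprime q then (c q (ZMod.unitOfCoprime m h) : ℂ) else 0

/-- `H` is a group of quadratic (or trivial) Dirichlet characters of squarefree conductors composed of
primes `q ∤ 2Δ` with `#E(ℤ/q)` odd. -/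
structure IsQuadGroup (a b : ℤ) (H : Subgroup Fam) : Prop where
  quadratic : ∀ c ∈ H, c ^ 2 = 1
  finite : ∀ c ∈ H, {q | c q ≠ 1}.Finite
  admissible : ∀ c ∈ H, ∀ q, c q ≠ 1 → q.Prime ∧ Admissible a b 2 q

/-- The `n`-th Fourier coefficient of `f`. -/
noncomputable def coef {N : ℕ} (f : CuspForm (Gamma0 N : Subgroup (GL (Fin 2) ℝ)) 2) (n : ℕ) : ℂ :=
  (qExpansion 1 f).coeff n

/-- `f ∈ S_2(Γ₀(N))` is the newform of the elliptic curve `E : y² = x³ + a x + b`, with its standard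
properties: the Fourier coefficients `c(n)` of `f` are real with `c(1) = 1`, they satisfy the Hecke
relations `c(mn) = c(m) c(n)` for coprime `m`, `n` and `c(p^(j+2)) = c(p) c(p^(j+1)) - p c(p^j)`
(without the last term if `p ∣ N`) and the bounds `|c(p)| ≤ 2√p` for `p ∤ N`, `|c(p)| ≤ 1` for
`p ∣ N`; `f` is an eigenfunction of the Fricke involution: `f(-1/(Nτ)) = -w N τ² f(τ)` with `w = ±1`;
for all primes `p ∤ 2Δ` one has `p ∤ N` and `c(p) = a_p(E)`.  (Every elliptic curve over `ℚ` has such a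
form by the modularity theorem.) -/
structure IsFormOf (a b : ℤ) (N : ℕ) (f : CuspForm (Gamma0 N : Subgroup (GL (Fin 2) ℝ)) 2) :
    Prop where
  one : coef f 1 = 1
  real : ∀ n, (coef f n).im = 0
  mul : ∀ m n : ℕ, Nat.Coprime m n → coef f (m * n) = coef f m * coef f n
  pow : ∀ p j : ℕ, p.Prime → coef f (p ^ (j + 2)) = coef f p * coef f (p ^ (j + 1)) -
      (if p ∣ N then 0 else (p : ℂ) * coef f (p ^ j))
  good : ∀ p : ℕ, p.Prime → ¬ p ∣ N → ‖coef f p‖ ≤ 2 * Real.sqrt p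
  bad : ∀ p : ℕ, p.Prime → p ∣ N → ‖coef f p‖ ≤ 1
  fricke : ∃ w : ℝ, (w = 1 ∨ w = -1) ∧ ∀ τ τ' : ℍ, (τ' : ℂ) * ((N : ℂ) * (τ : ℂ)) = -1 →
    f τ' = -(w : ℂ) * (N : ℂ) * (τ : ℂ) ^ 2 * f τ
  points : ∀ p : ℕ, GoodPrime a b p → ¬ p ∣ N ∧ coef f p = (p : ℂ) - (pointCount a b p : ℂ)

/-- `L` is the `L`-function `L(f, χ_c, s)`: it is entire, and for `Re s > 3/2` it is the Euler product
`∏_p (1 - χ_c(p) c(p) p^(-s) + χ_c(p)² p^(1-2s))⁻¹` (without the last term if `p ∣ N`). -/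
def IsTwistL {N : ℕ} (f : CuspForm (Gamma0 N : Subgroup (GL (Fin 2) ℝ)) 2) (c : Fam)
    (L : ℂ → ℂ) : Prop :=
  Differentiable ℂ L ∧ ∀ s : ℂ, 3 / 2 < s.re →
    HasProd (fun p : Nat.Primes => (1 - value c p * coef f p * ((p : ℕ) : ℂ) ^ (-s) +
      value c p ^ 2 * ((if (p : ℕ) ∣ N then 0 else ((p : ℕ) : ℂ)) *
        (((p : ℕ) : ℂ) ^ (-s)) ^ 2))⁻¹) (L s)

/-- The Gauss sum `∑ χ_c(u)⁻¹ exp(2 π i u / M)`, `0 ≤ u < M`, `M` the conductor of `χ_c`, of the inverse
of the character `χ_c` (the terms with `χ_c(u) = 0` are zero). -/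
noncomputable def gauss (c : Fam) : ℂ :=
  ∑ u ∈ Finset.range (conductor c),
    (value c u)⁻¹ * Complex.exp (2 * Real.pi * Complex.I * u / (conductor c : ℕ))

open Classical in
/-- The number `g(χ_c⁻¹) L(f, χ_c, 1)` (the function `L(f, χ_c, s)` exists and is unique by the theorem
below). -/
noncomputable def central {N : ℕ} (f : CuspForm (Gamma0 N : Subgroup (GL (Fin 2) ℝ)) 2)
    (c : Fam) : ℂ :=
  if h : ∃ L, IsTwistL f c L then gauss c * h.choose 1 else 0

/-- `x` is one of the numbers `2πi ∫_{i∞}^r f(z) dz = lim_{y → 0} ∑ c(n)/n exp(2 π i n (r + i y))`, `r` a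
rational number with denominator prime to the level `N`. -/
def IsPeriod {N : ℕ} (f : CuspForm (Gamma0 N : Subgroup (GL (Fin 2) ℝ)) 2) (x : ℂ) : Prop :=
  ∃ r : ℚ, r.den.Coprime N ∧ Filter.Tendsto (fun y : ℝ => ∑' n : ℕ, coef f n / n *
    Complex.exp (2 * Real.pi * Complex.I * n * ((r : ℂ) + (y : ℂ) * Complex.I))) (𝓝[>] 0) (𝓝 x)

/-- `g(χ_c) L(f, χ_c, 1)` is in `2 ^ μ Λ`, `Λ` the group generated by the periods. -/
def Divisible {N : ℕ} (f : CuspForm (Gamma0 N : Subgroup (GL (Fin 2) ℝ)) 2) (μ : ℕ) (c : Fam) :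
    Prop :=
  ∃ w ∈ AddSubgroup.closure {x | IsPeriod f x}, central f c = 2 ^ μ * w

theorem supp_mul (c k : Fam) (hc : {q | c q ≠ 1}.Finite) (hk : {q | k q ≠ 1}.Finite) :
    supp (c * k) ⊆ supp c ∪ supp k := by
  classical
  intro q hq
  have hck : {q | (c * k) q ≠ 1}.Finite := by
    refine (hc.union hk).subset ?_
    intro q hq
    by_contra h
    rw [Set.mem_union, not_or] at h
    have h1 : c q = 1 := not_not.1 h.1
    have h2 : k q = 1 := not_not.1 h.2
    exact hq (by rw [Pi.mul_apply, h1, h2]; ext u; simp)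
  unfold supp at hq ⊢
  rw [dif_pos hck, Set.Finite.mem_toFinset] at hq
  rw [dif_pos hc, dif_pos hk, Finset.mem_union, Set.Finite.mem_toFinset, Set.Finite.mem_toFinset]
  by_contra h
  rw [not_or] at h
  have h1 : c q = 1 := not_not.1 h.1
  have h2 : k q = 1 := not_not.1 h.2
  exact hq (by rw [Pi.mul_apply, h1, h2]; ext u; simp)

theorem conductor_pos (c : Fam) (h : ∀ q, c q ≠ 1 → q.Prime) : 0 < conductor c := by
  classical
  unfold conductor
  apply Finset.prod_pos
  intro q hq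
  unfold supp at hq
  split_ifs at hq with hf
  · rw [Set.Finite.mem_toFinset] at hq
    exact (h q hq).pos
  · exact absurd hq (Finset.notMem_empty q)

theorem prime_of_mem_supp {c : Fam} (h : ∀ q, c q ≠ 1 → q.Prime) {q : ℕ} (hq : q ∈ supp c) :
    q.Prime := by
  classical
  unfold supp at hq
  split_ifs at hq with hf
  · rw [Set.Finite.mem_toFinset] at hq
    exact h q hq
  · exact absurd hq (Finset.notMem_empty q)

theorem conductor_mul (c k : Fam) (hc : {q | c q ≠ 1}.Finite) (hk : {q | k q ≠ 1}.Finite)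
    (hc' : ∀ q, c q ≠ 1 → q.Prime) (hk' : ∀ q, k q ≠ 1 → q.Prime) :
    conductor (c * k) ≤ conductor c * conductor k := by
  classical
  have h1 : ∀ q ∈ supp c ∪ supp k, 1 ≤ q := by
    intro q hq
    rcases Finset.mem_union.1 hq with h | h
    · exact (prime_of_mem_supp hc' h).one_le
    · exact (prime_of_mem_supp hk' h).one_le
  calc conductor (c * k) ≤ ∏ q ∈ supp c ∪ supp k, q :=
        Finset.prod_le_prod_of_subset_of_one_le' (supp_mul c k hc hk) (fun q hq _ => h1 q hq)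
    _ ≤ (∏ q ∈ supp c ∪ supp k, q) * ∏ q ∈ supp c ∩ supp k, q := by
        refine Nat.le_mul_of_pos_right _ (Finset.prod_pos fun q hq => ?_)
        exact (prime_of_mem_supp hc' (Finset.mem_inter.1 hq).1).pos
    _ = conductor c * conductor k := Finset.prod_union_inter

section lib
variable {a b : ℤ} {N : ℕ} [NeZero N] {f : CuspForm (Gamma0 N : Subgroup (GL (Fin 2) ℝ)) 2}

open Pool.Agent.X252.LW (Pc Rc)
open Pool.Agent.Y18.LP (bt)
open Pool.Agent.Y18.BSD (bv)

theorem lib_of (hf : IsFormOf a b N f) : Pool.Agent.Y18.BSD.IsFormOf a b N f :=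
  ⟨hf.one, hf.real, hf.mul, hf.pow, hf.good, hf.bad, hf.fricke, hf.points⟩

theorem hok {H : Subgroup Fam} (hH : IsQuadGroup a b H) :
    Pool.Agent.Y18.LP.HOk 1 (fun _ => a) (fun _ => b) 2 1 H :=
  ⟨by simpa using hH.quadratic, hH.finite, fun c hc q hq =>
    ⟨(hH.admissible c hc q hq).1, fun _ => (hH.admissible c hc q hq).2⟩⟩

theorem hp_of (hf : IsFormOf a b N f) {H : Subgroup Fam} (hH : IsQuadGroup a b H) (c : Fam)
    (hc : c ∈ H) : ∀ q ∈ Pool.Agent.Y18.LP.sp c, q.Prime ∧ ¬ q ∣ N := by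
  intro q hq
  have h5 := (Pool.Agent.Y18.LP.mem_sp (hH.finite _ hc) q).1 hq
  obtain ⟨h6, h7⟩ := hH.admissible _ hc q h5
  exact ⟨h6, (hf.points q h7.1).1⟩

theorem exists_unique_L (hf : IsFormOf a b N f) {H : Subgroup Fam} (hH : IsQuadGroup a b H)
    (c : Fam) (hc : c ∈ H) : ∃! L, IsTwistL f c L := by
  obtain ⟨w, hnf, hfr⟩ := (lib_of hf).newf
  obtain ⟨G, hG1, hG2, -⟩ := Pool.Agent.Y18.LP.tw_complete hnf hfr (lib_of hf).cf (c := c)
    (hH.finite _ hc) (hp_of hf hH c hc)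
  refine ⟨G, ⟨hG1, hG2⟩, fun L hL => ?_⟩
  have hA : AnalyticOnNhd ℂ L Set.univ := fun s _ => hL.1.analyticAt s
  have hB : AnalyticOnNhd ℂ G Set.univ := fun s _ => hG1.analyticAt s
  have hev : L =ᶠ[𝓝 (2 : ℂ)] G := by
    have hopen : IsOpen {s : ℂ | (3 : ℝ) / 2 < s.re} :=
      isOpen_lt continuous_const Complex.continuous_re
    filter_upwards [hopen.mem_nhds (show (2 : ℂ) ∈ {s : ℂ | (3 : ℝ) / 2 < s.re} by
      show (3 : ℝ) / 2 < (2 : ℂ).re
      norm_num)] with s hs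
    exact (hL.2 s hs).unique (hG2 s hs)
  exact hA.eq_of_eventuallyEq hB hev

theorem central_eq (hf : IsFormOf a b N f) {H : Subgroup Fam} (hH : IsQuadGroup a b H)
    (c : Fam) (hc : c ∈ H) : central f c = bt (bv f) c := by
  obtain ⟨w, hnf, hfr⟩ := (lib_of hf).newf
  have hex : ∃ L, IsTwistL f c L := (exists_unique_L hf hH c hc).exists
  unfold central
  rw [dif_pos hex]
  have h1 := Pool.Agent.X252.LX.val_eq hnf hfr (lib_of hf).cf (hH.finite _ hc)
    (hp_of hf hH c hc) hex.choose hex.choose_spec.1 hex.choose_spec.2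
  have h2 : c⁻¹ = c := Pool.Agent.X252.LY.inv_self (G := Fam) (hH.quadratic c hc)
  rw [h2] at h1
  exact h1.symm

/-- the module of the periods -/
abbrev W1 (f : CuspForm (Gamma0 N : Subgroup (GL (Fin 2) ℝ)) 2) : Submodule (Rc (2 ^ 1)) ℂ :=
  Pool.Agent.X252.LX.Wp 1 (fun _ => N) (fun _ => f) (2 ^ 1) 0

theorem div_iff (hf : IsFormOf a b N f) {H : Subgroup Fam} (hH : IsQuadGroup a b H)
    (c : Fam) (hc : c ∈ H) (μ : ℕ) :
    Divisible f μ c ↔ bt (bv f) c ∈ Pc (pow_ne_zero 1 Nat.prime_two.ne_zero) ^ μ • W1 f := by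
  obtain ⟨w, hnf, hfr⟩ := (lib_of hf).newf
  have h1 : W1 f = Submodule.span (Rc (2 ^ 1)) {x | IsPeriod f x} :=
    Pool.Agent.X252.LX.span_period hfr
  rw [h1, Pool.Agent.X252.LY.mem_two]
  unfold Divisible
  rw [central_eq hf hH c hc]

theorem good_of (hf : IsFormOf a b N f) {H : Subgroup Fam} (hH : IsQuadGroup a b H) :
    Pool.Agent.Y18.LP.Good (2 ^ 1) (Pc (pow_ne_zero 1 Nat.prime_two.ne_zero)) (W1 f)
      (fun c : H => bt (bv f) c) :=
  Pool.Agent.X252.LX.good_fam 1 (fun _ => a) (fun _ => b) (fun _ => N) (fun _ => f)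
    (fun _ => lib_of hf) Nat.prime_two one_pos (hok hH) 0

theorem exists_V (hf : IsFormOf a b N f) {H : Subgroup Fam} (hH : IsQuadGroup a b H)
    (c : Fam) (hc : c ∈ H) (h0 : central f c ≠ 0) : ∃ V, ¬ Divisible f (V + 1) c := by
  have hR := Pool.Agent.X252.LW.noeth (e := 2 ^ 1) (by norm_num)
  have hms : Pool.Agent.Y18.LP.MS N (bv f) (Pool.Agent.Y18.BSD.co f) := by
    obtain ⟨w, -, hfr⟩ := (lib_of hf).newf
    exact Pool.Agent.Y18.LP.ms_of (lib_of hf).hrel hfr
  obtain ⟨V, hV⟩ := Pool.Agent.Y18.LP.krull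
    (Pool.Agent.X252.LW.Pc_max (n := 1) Nat.prime_two one_pos).ne_top
    (W := W1 f) (Pool.Agent.Y18.LP.span_fg hms.fin) ((good_of hf hH).mem ⟨c, hc⟩)
    (show bt (bv f) c ≠ 0 by rwa [← central_eq hf hH c hc])
  exact ⟨V, fun h => hV ((div_iff hf hH c hc _).1 h)⟩

end lib

/-- **Theorem.** Let `E : y² = x³ + a x + b` be an elliptic curve over `ℚ` with newform `f`, and `H` a
group of quadratic Dirichlet characters of squarefree conductors composed of primes `q ∤ 2Δ` with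
`#E(ℤ/q)` odd. Let `x(χ) = g(χ) L(f, χ, 1)`, and let `Λ` be the group generated by the periods.

(1) The functions `L(f, χ, s)`, `χ ∈ H`, exist and are unique.

(2) If `x(χ) ≠ 0`, then `x(χ) ∉ 2^(V+1) Λ` for some `V`; and if `x(χ0) ∉ 2^(V+1) Λ` for some `χ0 ∈ H`,
then there is a `μ ≤ V` with `x(χ) ∈ 2^μ Λ` for all `χ ∈ H` and `x(χ) ∉ 2^(μ+1) Λ` for some `χ ∈ H`.

(3) Suppose that `x(χ) ∈ 2^μ Λ` for all `χ ∈ H`.

* If `k > μ`, then `∑_T x(χ ∏_{j ∈ T} χ_j) ∈ 2^(μ+1) Λ` for all `χ, χ_1, …, χ_k ∈ H`, the sum over all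
  `T ⊂ {1, …, k}`.
* Let `U` be a finite subgroup of `H` and `χ ∈ H`, such that `x(χ u) ∉ 2^(μ+1) Λ` for some `u ∈ U`. Then
  the number of such `u` is at least `2^(-μ) |U|`; and if it is equal to `2^(-μ) |U|`, then these `u` form
  a coset of a subgroup of `U` of index `2^μ`.
* If `x(χ) ∉ 2^(μ+1) Λ` for some `χ ∈ H`, then there is a subgroup `K` of `H` with at most `2^μ` elements
  such that for every `χ ∈ H` there is a `k ∈ K` with `x(χ k) ∉ 2^(μ+1) Λ`; and there is a `B` such that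
  the number of `χ ∈ H` with conductor at most `X` is at most `2^μ` times the number of `χ ∈ H` with
  conductor at most `B X` and `x(χ) ∉ 2^(μ+1) Λ`, for all `X`. -/
theorem result :
    ∀ a b : ℤ, 4 * a ^ 3 + 27 * b ^ 2 ≠ 0 → ∀ N : ℕ, N ≠ 0 →
      ∀ f : CuspForm (Gamma0 N : Subgroup (GL (Fin 2) ℝ)) 2, IsFormOf a b N f →
      ∀ H : Subgroup Fam, IsQuadGroup a b H →
      (∀ c ∈ H, ∃! L, IsTwistL f c L) ∧
      (∀ c ∈ H, central f c ≠ 0 → ∃ V : ℕ, ¬ Divisible f (V + 1) c) ∧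
      (∀ c0 ∈ H, ∀ V : ℕ, ¬ Divisible f (V + 1) c0 →
        ∃ μ ≤ V, (∀ c ∈ H, Divisible f μ c) ∧ ∃ c ∈ H, ¬ Divisible f (μ + 1) c) ∧
      ∀ μ : ℕ, (∀ c ∈ H, Divisible f μ c) →
        (∀ k : ℕ, μ < k → ∀ d : Fin k → Fam, (∀ j, d j ∈ H) → ∀ c ∈ H,
          ∃ w ∈ AddSubgroup.closure {x | IsPeriod f x},
            ∑ T : Finset (Fin k), central f (c * ∏ j ∈ T, d j) = 2 ^ (μ + 1) * w) ∧
        (∀ U : Subgroup Fam, U ≤ H → (U : Set Fam).Finite → ∀ c ∈ H,
          (∃ u ∈ U, ¬ Divisible f (μ + 1) (c * u)) →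
          Nat.card U ≤ 2 ^ μ * {u | u ∈ U ∧ ¬ Divisible f (μ + 1) (c * u)}.ncard ∧
          (Nat.card U = 2 ^ μ * {u | u ∈ U ∧ ¬ Divisible f (μ + 1) (c * u)}.ncard →
            ∃ T : Subgroup Fam, T ≤ U ∧ Nat.card U = 2 ^ μ * Nat.card T ∧ ∃ s ∈ U, ∀ u ∈ U,
              ¬ Divisible f (μ + 1) (c * u) ↔ u * s⁻¹ ∈ T)) ∧
        ((∃ c ∈ H, ¬ Divisible f (μ + 1) c) →
          (∃ K : Subgroup Fam, K ≤ H ∧ (K : Set Fam).Finite ∧ Nat.card K ≤ 2 ^ μ ∧
            ∀ c ∈ H, ∃ k ∈ K, ¬ Divisible f (μ + 1) (c * k)) ∧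
          ∃ B : ℕ, ∀ X : ℕ, {c | c ∈ H ∧ conductor c ≤ X}.encard ≤
            2 ^ μ * {c | c ∈ H ∧ conductor c ≤ B * X ∧ ¬ Divisible f (μ + 1) c}.encard) := by
  classical
  intro a b hΔ N hN f hf H hH
  have : NeZero N := ⟨hN⟩
  refine ⟨fun c hc => exists_unique_L hf hH c hc, fun c hc h0 => exists_V hf hH c hc h0, ?_, ?_⟩
  · intro c0 hc0 V hV
    have hex : ∃ j : ℕ, ∃ c ∈ H, ¬ Divisible f (j + 1) c := ⟨V, c0, hc0, hV⟩
    refine ⟨Nat.find hex, Nat.find_min' hex ⟨c0, hc0, hV⟩, fun c hc => ?_, Nat.find_spec hex⟩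
    rcases Nat.eq_zero_or_pos (Nat.find hex) with h | h
    · rw [h, div_iff hf hH c hc, pow_zero, Ideal.one_eq_top, Submodule.top_smul]
      exact (good_of hf hH).mem ⟨c, hc⟩
    · by_contra hcon
      have h1 := Nat.find_min hex (m := Nat.find hex - 1) (by omega)
      apply h1
      refine ⟨c, hc, ?_⟩
      rwa [Nat.sub_add_cancel h]
  intro μ hμ
  have hgood := good_of hf hH
  have hmin : ∀ c ∈ H, Pool.Agent.Y18.LP.bt (Pool.Agent.Y18.BSD.bv f) c ∈
      Pool.Agent.X252.LW.Pc (pow_ne_zero 1 Nat.prime_two.ne_zero) ^ μ • W1 f :=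
    fun c hc => (div_iff hf hH c hc μ).1 (hμ c hc)
  refine ⟨?_, ?_, ?_⟩
  · intro k hk d hd c hc
    have h1 := Pool.Agent.X252.LY.sums_sub (G := Fam) hgood hmin d hd hk c hc
    obtain ⟨w, hnf, hfr⟩ := (lib_of hf).newf
    have h2 : W1 f = Submodule.span (Pool.Agent.X252.LW.Rc (2 ^ 1)) {x | IsPeriod f x} :=
      Pool.Agent.X252.LX.span_period hfr
    rw [h2, Pool.Agent.X252.LY.mem_two] at h1
    obtain ⟨w, hw, h3⟩ := h1
    refine ⟨w, hw, ?_⟩
    rw [← h3]
    refine Finset.sum_congr rfl fun T _ => ?_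
    exact central_eq hf hH _ (Pool.Agent.X252.LY.mul_prod_mem (G := Fam) H d hd c hc T)
  · intro U hU hUfin c hc hx
    have hiff : ∀ u ∈ U, (¬ Divisible f (μ + 1) (c * u) ↔
        Pool.Agent.Y18.LP.bt (Pool.Agent.Y18.BSD.bv f) (c * u) ∉
          Pool.Agent.X252.LW.Pc (pow_ne_zero 1 Nat.prime_two.ne_zero) ^ (μ + 1) • W1 f) :=
      fun u hu => not_congr (div_iff hf hH _ (H.mul_mem hc (hU hu)) _)
    have hset : {u | u ∈ U ∧ ¬ Divisible f (μ + 1) (c * u)} =
        {u | u ∈ U ∧ Pool.Agent.Y18.LP.bt (Pool.Agent.Y18.BSD.bv f) (c * u) ∉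
          Pool.Agent.X252.LW.Pc (pow_ne_zero 1 Nat.prime_two.ne_zero) ^ (μ + 1) • W1 f} := by
      ext u
      exact and_congr_right fun hu => hiff u hu
    obtain ⟨h1, h2⟩ := Pool.Agent.X252.LY.coset_sub (G := Fam) hH.quadratic hgood hmin U hU hUfin
      c hc (by
        obtain ⟨u, hu, h⟩ := hx
        exact ⟨u, hu, (hiff u hu).1 h⟩)
    rw [hset]
    refine ⟨h1, fun heq => ?_⟩
    obtain ⟨T, hT1, hT2, s, hs, hT3⟩ := h2 heq
    exact ⟨T, hT1, hT2, s, hs, fun u hu => (hiff u hu).trans (hT3 u hu)⟩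
  · intro hne
    obtain ⟨K, hK1, hK2, hK3, hK4⟩ := Pool.Agent.X252.LY.meets_sub (G := Fam) hH.quadratic hgood
      hmin (by
        obtain ⟨c, hc, h⟩ := hne
        exact ⟨c, hc, fun h' => h ((div_iff hf hH c hc _).2 h')⟩)
    have hK5 : ∀ c ∈ H, ∃ k ∈ K, ¬ Divisible f (μ + 1) (c * k) := by
      intro c hc
      obtain ⟨k, hk, h⟩ := hK4 c hc
      exact ⟨k, hk, fun h' => h ((div_iff hf hH _ (H.mul_mem hc (hK1 hk)) _).1 h')⟩
    refine ⟨⟨K, hK1, hK2, hK3, hK5⟩, ?_⟩
    have hcard : hK2.toFinset.card = Nat.card K := by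
      rw [← Set.ncard_eq_toFinset_card _ hK2]
      rfl
    refine ⟨∏ k ∈ hK2.toFinset, conductor k, fun X => ?_⟩
    have hpos : ∀ k ∈ hK2.toFinset, 0 < conductor k := fun k hk =>
      conductor_pos _ fun q hq => (hH.admissible _ (hK1 (hK2.mem_toFinset.1 hk)) q hq).1
    have h1 := Pool.Agent.X252.LW.encard_translate {c | c ∈ H ∧ conductor c ≤ X}
      {c | c ∈ H ∧ conductor c ≤ (∏ k ∈ hK2.toFinset, conductor k) * X ∧
        ¬ Divisible f (μ + 1) c} hK2.toFinset ⟨1, hK2.mem_toFinset.2 K.one_mem⟩ 1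
      hK2.toFinset.card (by
        rintro c ⟨hc, hcX⟩
        obtain ⟨k, hk, h⟩ := hK5 c hc
        have hk' : k ∈ hK2.toFinset := hK2.mem_toFinset.2 hk
        rw [one_mul]
        refine Nat.le_mul_of_pos_right _ ?_
        rw [Set.ncard_pos ((hK2.toFinset.finite_toSet).subset fun k hk => hk.1)]
        refine ⟨k, hk', H.mul_mem hc (hK1 hk), ?_, h⟩
        have h3 := conductor_mul c k (hH.finite _ hc) (hH.finite _ (hK1 hk))
          (fun q hq => (hH.admissible _ hc q hq).1)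
          (fun q hq => (hH.admissible _ (hK1 hk) q hq).1)
        have h4 : conductor k ≤ ∏ k ∈ hK2.toFinset, conductor k :=
          Nat.le_of_dvd (Finset.prod_pos hpos) (Finset.dvd_prod_of_mem _ hk')
        calc conductor (c * k) ≤ conductor c * conductor k := h3
          _ ≤ X * ∏ k ∈ hK2.toFinset, conductor k := Nat.mul_le_mul hcX h4
          _ = _ := mul_comm _ _)
    rw [Nat.cast_one, one_mul] at h1
    refine h1.trans ?_
    gcongr
    rw [hcard]
    exact_mod_cast hK3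

end Pool.Agent.Results.MP_9c97e9_nt.LeastValuationOfTwists
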